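import Pool.Agent.Q88.KEC.Ext
import Mathlib.Algebra.Group.Subgroup.Ker

/-! # Semiregular subgroups of a large symmetric group -/

namespace Pool.Agent.Q88.KEC

universe u

open Cardinal

theorem reps {A Z : Type u} [Group A] (σ : A →* Equiv.Perm Z) :
    ∃ (r : Z → Z) (a : Z → A), (∀ z, σ (a z) (r z) = z) ∧ ∀ b z, r (σ b z) = r z := by
  classical
  let s : Setoid Z :=
    { r := fun z w => ∃ a, σ a z = w
      iseqv := ⟨fun z => ⟨1, by rw [map_one]; rfl⟩, by
        rintro z w ⟨a, rfl⟩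
        exact ⟨a⁻¹, by rw [← Equiv.Perm.mul_apply, ← map_mul, inv_mul_cancel, map_one]; rfl⟩, by
        rintro z w v ⟨a, rfl⟩ ⟨b, rfl⟩
        exact ⟨b * a, by rw [map_mul]; rfl⟩⟩ }
  have h1 : ∀ z, ∃ a, σ a (Quotient.mk s z).out = z := fun z => Quotient.mk_out (s := s) z
  choose a ha using h1
  refine ⟨fun z => (Quotient.mk s z).out, a, ha, fun b z => ?_⟩
  have h2 : Quotient.mk s (σ b z) = Quotient.mk s z := (Quotient.sound (s := s) ⟨b, rfl⟩).symm
  change (Quotient.mk s (σ b z)).out = (Quotient.mk s z).out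
  rw [h2]

theorem freeEmb {A Z₁ Z₂ : Type u} [Group A] (σ₁ : A →* Equiv.Perm Z₁) (σ₂ : A →* Equiv.Perm Z₂)
    (h₁ : ∀ a z, σ₁ a z = z → a = 1) (h₂ : ∀ a z, σ₂ a z = z → a = 1)
    (hA : #A < #Z₂) (hinf : ℵ₀ ≤ #Z₂) (hZ : #Z₁ ≤ #Z₂) :
    ∃ f : Z₁ → Z₂, Function.Injective f ∧ ∀ a z, f (σ₁ a z) = σ₂ a (f z) := by
  obtain ⟨r₁, a₁, hr₁, hr₁'⟩ := reps σ₁
  obtain ⟨r₂, a₂, hr₂, hr₂'⟩ := reps σ₂
  have hfree : ∀ {Z : Type u} (σ : A →* Equiv.Perm Z), (∀ a z, σ a z = z → a = 1) →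
      ∀ a b z, σ a z = σ b z → a = b := by
    intro Z σ h a b z hab
    have h3 : σ (b⁻¹ * a) z = z := by
      rw [map_mul, Equiv.Perm.mul_apply, hab, ← Equiv.Perm.mul_apply, ← map_mul, inv_mul_cancel,
        map_one]
      rfl
    exact (inv_mul_eq_one.mp (h _ _ h3)).symm
  -- there are enough orbits in `Z₂`
  have hQ : #Z₂ ≤ #(Set.range r₂) := by
    by_contra hcon
    push Not at hcon
    have h3 : #Z₂ ≤ #(A × Set.range r₂) := by
      apply mk_le_of_injective (f := fun z => (a₂ z, (⟨r₂ z, z, rfl⟩ : Set.range r₂)))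
      intro z w hzw
      have h4 : a₂ z = a₂ w := congrArg Prod.fst hzw
      have h5 : r₂ z = r₂ w := congrArg (fun p => (p.2 : Z₂)) hzw
      rw [← hr₂ z, ← hr₂ w, h4, h5]
    rw [mk_prod, lift_id, lift_id] at h3
    exact absurd h3 (not_le.mpr (mul_lt_of_lt hinf hA hcon))
  obtain ⟨n⟩ := hZ.trans hQ
  have hn : ∀ z, ∃ w, r₂ w = (n z : Z₂) := fun z => (n z).2
  refine ⟨fun z => σ₂ (a₁ z) (n (r₁ z)), ?_, ?_⟩
  · intro z w hzw
    change σ₂ (a₁ z) (n (r₁ z) : Z₂) = σ₂ (a₁ w) (n (r₁ w) : Z₂) at hzw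
    have h3 : r₂ (n (r₁ z) : Z₂) = r₂ (n (r₁ w) : Z₂) := by
      rw [← hr₂' (a₁ z), hzw, hr₂']
    have hidem : ∀ w, r₂ (r₂ w) = r₂ w := by
      intro w
      have h4 := hr₂' (a₂ w) (r₂ w)
      rw [hr₂] at h4
      exact h4.symm
    obtain ⟨z', hz'⟩ := hn (r₁ z)
    obtain ⟨w', hw'⟩ := hn (r₁ w)
    have h5 : (n (r₁ z) : Z₂) = n (r₁ w) := by
      rw [← hz', ← hw', hidem, hidem, hz', hw'] at h3
      exact h3
    have h6 : r₁ z = r₁ w := n.injective (Subtype.ext h5)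
    rw [h5] at hzw
    have h7 := hfree σ₂ h₂ _ _ _ hzw
    rw [← hr₁ z, ← hr₁ w, h6, h7]
  · intro b z
    change σ₂ (a₁ (σ₁ b z)) (n (r₁ (σ₁ b z)) : Z₂) = σ₂ b (σ₂ (a₁ z) (n (r₁ z)))
    rw [hr₁', ← Equiv.Perm.mul_apply, ← map_mul]
    have h3 : a₁ (σ₁ b z) = b * a₁ z := by
      apply hfree σ₁ h₁ _ _ (r₁ z)
      rw [map_mul, Equiv.Perm.mul_apply, hr₁ z]
      have h4 := hr₁ (σ₁ b z)
      rwa [hr₁'] at h4
    rw [h3]

/-- A subgroup is semiregular. -/
def Fr {N : Type u} (P : Subgroup (Equiv.Perm N)) : Prop := ∀ g ∈ P, ∀ x, g x = x → g = 1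

theorem extend {N H : Type u} [Group H] (P : Subgroup (Equiv.Perm N)) (hP : Fr P) (f : P →* H)
    (hf : Function.Injective f) (hN : ℵ₀ ≤ #N) (hH : #H < #N) :
    ∃ θ : H →* Equiv.Perm N, Function.Injective θ ∧ (∀ p : P, θ (f p) = p) ∧ Fr θ.range := by
  -- the action of `H` on `H × N`
  let τ : H →* Equiv.Perm (H × N) :=
    { toFun := fun h =>
        { toFun := fun x => (h * x.1, x.2)
          invFun := fun x => (h⁻¹ * x.1, x.2)
          left_inv := fun x => by simp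
          right_inv := fun x => by simp }
      map_one' := Equiv.ext fun x => by simp
      map_mul' := fun h k => Equiv.ext fun x => by simp [mul_assoc] }
  have hτ : ∀ h x, τ h x = x → h = 1 := by
    intro h x hx
    have h1 : h * x.1 = x.1 := congrArg Prod.fst hx
    exact mul_eq_right.mp h1
  have hcard : #(H × N) = #N := by
    rw [mk_prod, lift_id, lift_id]
    apply mul_eq_right hN hH.le
    exact mk_ne_zero H
  have hPH : #P ≤ #H := mk_le_of_injective hf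
  have hPN : #P < #N := hPH.trans_lt hH
  have hfree₁ : ∀ (a : P) (z : N), P.subtype a z = z → a = 1 :=
    fun a z haz => Subtype.ext (hP a a.2 z haz)
  have hfree₂ : ∀ (a : P) (z : H × N), (τ.comp f) a z = z → a = 1 :=
    fun a z haz => hf ((hτ (f a) z haz).trans (map_one f).symm)
  obtain ⟨g₁, hg₁, hg₁'⟩ := freeEmb P.subtype (τ.comp f) hfree₁ hfree₂ (by rwa [hcard])
    (by rwa [hcard]) hcard.ge
  obtain ⟨g₂, hg₂, hg₂'⟩ := freeEmb (τ.comp f) P.subtype hfree₂ hfree₁ hPN hN hcard.le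
  obtain ⟨e, he⟩ := csb P.subtype (τ.comp f) g₁ hg₁ hg₁' g₂ hg₂ hg₂'
  let θ : H →* Equiv.Perm N :=
    { toFun := fun h => (e.trans (τ h)).trans e.symm
      map_one' := by
        rw [map_one]
        apply Equiv.ext
        intro x
        exact e.symm_apply_apply x
      map_mul' := fun h k => by
        rw [map_mul]
        apply Equiv.ext
        intro x
        change e.symm (τ h (τ k (e x))) = e.symm (τ h (e (e.symm (τ k (e x)))))
        rw [e.apply_symm_apply] }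
  have hθ : ∀ h x, θ h x = x → h = 1 := by
    intro h x hx
    have h1 : e.symm (τ h (e x)) = x := hx
    rw [Equiv.symm_apply_eq] at h1
    exact hτ _ _ h1
  refine ⟨θ, ?_, ?_, ?_⟩
  · rw [injective_iff_map_eq_one]
    intro h hh
    have hne : Nonempty N := by
      rw [← mk_ne_zero_iff]
      intro h0
      rw [h0] at hN
      exact absurd hN (not_le.mpr aleph0_pos)
    obtain ⟨x⟩ := hne
    exact hθ h x (by rw [hh]; rfl)
  · intro p
    apply Equiv.ext
    intro x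
    change e.symm (τ (f p) (e x)) = p.1 x
    rw [Equiv.symm_apply_eq]
    exact (he p x).symm
  · rintro _ ⟨h, rfl⟩ x hx
    rw [hθ h x hx, map_one]

end Pool.Agent.Q88.KEC
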