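import Pool.Agent.Q88.KEC.Step
import Mathlib.Order.WellFounded

/-! # The chain of groups -/

namespace Pool.Agent.Q88.KEC

universe u

open Cardinal

open Classical in
/-- a chosen good extension -/
noncomputable def step (I M : Type u) {N : Type u} (P : Subgroup (Equiv.Perm N)) :
    Subgroup (Equiv.Perm N) :=
  if h : ∃ S, Good I M P S then h.choose else ⊤

theorem step_good {I M N : Type u} (P : Subgroup (Equiv.Perm N)) (h : ∃ S, Good I M P S) :
    Good I M P (step I M P) := by
  unfold step
  rw [dif_pos h]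
  exact h.choose_spec

/-- the chain -/
noncomputable def chain (I M N W : Type u) [LinearOrder W] [WellFoundedLT W] :
    W → Subgroup (Equiv.Perm N) :=
  (wellFounded_lt (α := W)).fix fun j F => step I M (⨆ k : Set.Iio j, F k.1 k.2)

theorem chain_eq (I M N W : Type u) [LinearOrder W] [WellFoundedLT W] (j : W) :
    chain I M N W j = step I M (⨆ k : Set.Iio j, chain I M N W k.1) := by
  unfold chain
  rw [WellFounded.fix_eq]

theorem chain_good {I M N W : Type u} [LinearOrder W] [WellFoundedLT W] (hI : ℵ₀ ≤ #I)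
    (hM : #M = 2 ^ #I) (hN : #(Equiv.Perm M) < #N) (hW : ∀ j : W, #(Set.Iio j) ≤ #I) :
    ∀ j, Good I M (⨆ k : Set.Iio j, chain I M N W k.1) (chain I M N W j) := by
  intro j
  induction j using WellFoundedLT.induction with
  | ind j ih =>
  rw [chain_eq I M N W j]
  apply step_good
  by_cases hne : Nonempty (Set.Iio j)
  · have hmono : Monotone fun k : Set.Iio j => chain I M N W k.1 := by
      intro k k' hkk'
      rcases eq_or_lt_of_le hkk' with h | h
      · rw [h]
      · exact (le_iSup (fun x : Set.Iio k'.1 => chain I M N W x.1) ⟨k.1, h⟩).trans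
          (ih k'.1 k'.2).le
    have hfree : Fr (⨆ k : Set.Iio j, chain I M N W k.1) := by
      intro g hg x hx
      rw [Subgroup.mem_iSup_of_directed hmono.directed_le] at hg
      obtain ⟨k, hk⟩ := hg
      exact (ih k.1 k.2).free g hk x hx
    have hiso : ∀ k : Set.Iio j, ∃ e : chain I M N W k.1 →* Equiv.Perm M,
        Function.Injective e := by
      intro k
      obtain ⟨e⟩ := (ih k.1 k.2).iso
      exact ⟨e.toMonoidHom, e.injective⟩
    choose e he using hiso
    obtain ⟨η, hη⟩ := germEmb hI hM (hW j) (fun k : Set.Iio j => chain I M N W k.1) hmono e he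
    exact step_exists hI hM hN _ hfree η hη
  · have hbot : (⨆ k : Set.Iio j, chain I M N W k.1) = ⊥ := by
      rw [not_nonempty_iff] at hne
      exact iSup_of_empty _
    rw [hbot]
    refine step_exists hI hM hN ⊥ ?_ 1 ?_
    · intro g hg x _
      exact Subgroup.mem_bot.mp hg
    · intro a b _
      exact Subsingleton.elim a b

section

variable {I M N W : Type u} [LinearOrder W] [WellFoundedLT W] (hI : ℵ₀ ≤ #I)
    (hM : #M = 2 ^ #I) (hN : #(Equiv.Perm M) < #N) (hW : ∀ j : W, #(Set.Iio j) ≤ #I)
    (hW' : #I < #W)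

include hI hM hN hW

theorem chain_mono : Monotone (chain I M N W) := by
  intro k k' hkk'
  rcases eq_or_lt_of_le hkk' with h | h
  · rw [h]
  · exact (le_iSup (fun x : Set.Iio k' => chain I M N W x.1) ⟨k, h⟩).trans
      (chain_good hI hM hN hW k').le

omit hM hN in
include hW' in
theorem bounded (s : Set W) (hs : #s ≤ #I) : ∃ j, ∀ i ∈ s, i < j := by
  by_contra hcon
  push Not at hcon
  have h1 : (Set.univ : Set W) = ⋃ i : s, Set.Iic i.1 := by
    ext j
    simp only [Set.mem_univ, Set.mem_iUnion, Set.mem_Iic, true_iff]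
    obtain ⟨i, hi, hji⟩ := hcon j
    exact ⟨⟨i, hi⟩, hji⟩
  have h2 : #W ≤ #I := by
    rw [← mk_univ, h1]
    refine (mk_iUnion_le _).trans ?_
    have h3 : ⨆ i : s, #(Set.Iic i.1) ≤ #I := by
      apply ciSup_le'
      intro i
      have h4 : Set.Iic i.1 = insert i.1 (Set.Iio i.1) := by
        rw [Set.Iio_insert]
      rw [h4]
      exact mk_insert_le.trans ((add_le_add_left (hW i.1) 1).trans (add_one_eq hI).le)
    exact (mul_le_mul' hs h3).trans (mul_eq_self hI).le
  exact absurd h2 (not_le.mpr hW')

end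

end Pool.Agent.Q88.KEC
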