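import Mathlib.GroupTheory.Perm.ViaEmbedding
import Mathlib.GroupTheory.GroupAction.Basic
import Mathlib.SetTheory.Cardinal.Arithmetic
import Mathlib.SetTheory.Cardinal.Regular

/-! # Extending actions of small groups

For an infinite type `I` and a type `M`, `Y I M` is the set of all sets of at most `#I` functions
`Option I → M`.  Any two faithful actions of a group of size at most `#I` on `M` become isomorphic
on `Y I M`. -/

namespace Pool.Agent.Q88.KEC

universe u

open Cardinal

/-- Two equivariant injections give an equivariant bijection. -/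
theorem csb {A Z₁ Z₂ : Type u} [Group A] (σ₁ : A →* Equiv.Perm Z₁) (σ₂ : A →* Equiv.Perm Z₂)
    (f : Z₁ → Z₂) (hf : Function.Injective f) (hfe : ∀ a z, f (σ₁ a z) = σ₂ a (f z))
    (g : Z₂ → Z₁) (hg : Function.Injective g) (hge : ∀ a z, g (σ₂ a z) = σ₁ a (g z)) :
    ∃ e : Z₁ ≃ Z₂, ∀ a z, e (σ₁ a z) = σ₂ a (e z) := by
  classical
  -- the set of points with an odd history
  let C : Set Z₁ := {z | ∃ n : ℕ, ∃ w, (∀ v, g v ≠ w) ∧ (fun x => g (f x))^[n] w = z}
  have hCinv : ∀ a z, z ∈ C → σ₁ a z ∈ C := by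
    rintro a z ⟨n, w, hw, rfl⟩
    refine ⟨n, σ₁ a w, ?_, ?_⟩
    · intro v hv
      apply hw (σ₂ a⁻¹ v)
      rw [hge, hv, ← Equiv.Perm.mul_apply, ← map_mul, inv_mul_cancel, map_one]
      rfl
    · induction n with
      | zero => rfl
      | succ n ih =>
        rw [Function.iterate_succ_apply', Function.iterate_succ_apply', ih, hfe, hge]
  have hCinv' : ∀ a z, σ₁ a z ∈ C → z ∈ C := by
    intro a z h
    have h1 := hCinv a⁻¹ _ h
    rw [← Equiv.Perm.mul_apply, ← map_mul, inv_mul_cancel, map_one] at h1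
    exact h1
  have hCg : ∀ z, z ∉ C → ∃ v, g v = z := by
    intro z hz
    by_contra hcon
    push Not at hcon
    exact hz ⟨0, z, hcon, rfl⟩
  obtain ⟨k, hk⟩ : ∃ k : Z₁ → Z₂, ∀ z, z ∉ C → g (k z) = z := by
    refine ⟨fun z => if h : ∃ v, g v = z then h.choose else f z, fun z hz => ?_⟩
    have h := hCg z hz
    change g (if h : ∃ v, g v = z then h.choose else f z) = z
    rw [dif_pos h]
    exact h.choose_spec
  let h : Z₁ → Z₂ := fun z => if z ∈ C then f z else k z
  have hin : ∀ z, z ∈ C → h z = f z := fun z hz => if_pos hz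
  have hout : ∀ z, z ∉ C → g (h z) = z := fun z hz => by
    change g (if z ∈ C then f z else k z) = z
    rw [if_neg hz, hk z hz]
  have hgf : ∀ z, z ∈ C → g (f z) ∈ C := by
    rintro z ⟨n, w, hw, rfl⟩
    refine ⟨n + 1, w, hw, ?_⟩
    rw [Function.iterate_succ_apply']
  have hbij : Function.Bijective h := by
    constructor
    · intro x y hxy
      by_cases hx : x ∈ C
      · by_cases hy : y ∈ C
        · rw [hin x hx, hin y hy] at hxy
          exact hf hxy
        · exfalso
          apply hy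
          rw [← hout y hy, ← hxy, hin x hx]
          exact hgf x hx
      · by_cases hy : y ∈ C
        · exfalso
          apply hx
          rw [← hout x hx, hxy, hin y hy]
          exact hgf y hy
        · rw [← hout x hx, ← hout y hy, hxy]
    · intro w
      by_cases hw : g w ∈ C
      · obtain ⟨n, w', hw', hn⟩ := hw
        rcases n with _ | n
        · exact absurd hn.symm (hw' w)
        · rw [Function.iterate_succ_apply'] at hn
          refine ⟨(fun x => g (f x))^[n] w', ?_⟩
          rw [hin _ ⟨n, w', hw', rfl⟩]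
          exact hg hn
      · exact ⟨g w, hg (hout _ hw)⟩
  refine ⟨Equiv.ofBijective h hbij, fun a z => ?_⟩
  change h (σ₁ a z) = σ₂ a (h z)
  by_cases hz : z ∈ C
  · rw [hin z hz, hin _ (hCinv a z hz), hfe]
  · have h1 : σ₁ a z ∉ C := fun h2 => hz (hCinv' a z h2)
    apply hg
    rw [hout _ h1, hge, hout z hz]

/-- Sets of at most `#I` functions `Option I → M`. -/
def Y (I M : Type u) : Type u := {E : Set (Option I → M) // #E ≤ #I}

variable {I M : Type u}

/-- The action of permutations of `M` on `Y I M`. -/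
def act (g : Equiv.Perm M) (E : Y I M) : Y I M :=
  ⟨(fun t => fun i => g (t i)) '' E.1, mk_image_le.trans E.2⟩

theorem act_one (E : Y I M) : act 1 E = E := by
  apply Subtype.ext
  change (fun t => fun i => (1 : Equiv.Perm M) (t i)) '' E.1 = E.1
  exact Set.image_id _

theorem act_mul (g h : Equiv.Perm M) (E : Y I M) : act (g * h) E = act g (act h E) := by
  apply Subtype.ext
  change (fun t => fun i => (g * h) (t i)) '' E.1 =
    (fun t => fun i => g (t i)) '' ((fun t => fun i => h (t i)) '' E.1)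
  rw [Set.image_image]
  rfl

/-- The homomorphism `Perm M → Perm (Y I M)`. -/
def Ext (I M : Type u) : Equiv.Perm M →* Equiv.Perm (Y I M) where
  toFun g :=
    { toFun := act g
      invFun := act g⁻¹
      left_inv := fun E => by rw [← act_mul, inv_mul_cancel, act_one]
      right_inv := fun E => by rw [← act_mul, mul_inv_cancel, act_one] }
  map_one' := Equiv.ext act_one
  map_mul' := fun g h => Equiv.ext (act_mul g h)

theorem Ext_injective (hI : 1 ≤ #I) : Function.Injective (Ext I M) := by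
  rw [injective_iff_map_eq_one]
  intro g hg
  apply Equiv.ext
  intro m
  have h1 : act g (⟨{fun _ => m}, by rw [mk_singleton]; exact hI⟩ : Y I M) =
      ⟨{fun _ => m}, by rw [mk_singleton]; exact hI⟩ := Equiv.ext_iff.mp hg _
  have h2 := congrArg Subtype.val h1
  change (fun t => fun i => g (t i)) '' {fun _ => m} = {fun _ => m} at h2
  rw [Set.image_singleton, Set.singleton_eq_singleton_iff] at h2
  exact congrFun h2 none

/-- Every action of a small group on a set of size at most `#M` embeds in the action on `Y I M`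
coming from a faithful action on `M`. -/
theorem universal {A Z : Type u} [Group A] (hA : #A ≤ #I) (hZ : #Z ≤ #M)
    (ρ : A →* Equiv.Perm M) (hρ : Function.Injective ρ) (σ : A →* Equiv.Perm Z) :
    ∃ j : Z → Y I M, Function.Injective j ∧ ∀ a z, j (σ a z) = Ext I M (ρ a) (j z) := by
  classical
  -- an injection of `Z` in `M`
  obtain ⟨n⟩ := hZ
  -- a function with trivial stabilizer
  have hp : Z → ∃ p : I → M, ∀ a : A, (∀ i, ρ a (p i) = p i) → a = 1 := by
    intro z0
    have hmov : ∀ a : A, ∃ m : M, ρ a m = m → a = 1 := by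
      intro a
      by_cases ha : a = 1
      · exact ⟨n z0, fun _ => ha⟩
      · have h1 : ρ a ≠ 1 := fun h => ha (hρ (h.trans (map_one ρ).symm))
        obtain ⟨m, hm⟩ : ∃ m, ρ a m ≠ m := by
          by_contra hcon
          push Not at hcon
          exact h1 (Equiv.ext hcon)
        exact ⟨m, fun h => absurd h hm⟩
    choose m hm using hmov
    obtain ⟨ι⟩ := hA
    refine ⟨fun i => if h : ∃ a, ι a = i then m h.choose else m 1, fun a ha => ?_⟩
    have h1 := ha (ι a)
    have h2 : ∃ a', ι a' = ι a := ⟨a, rfl⟩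
    beta_reduce at h1
    rw [dif_pos h2] at h1
    have h3 : h2.choose = a := ι.injective h2.choose_spec
    rw [h3] at h1
    exact hm a h1
  by_cases hne : Nonempty Z
  swap
  · exact ⟨fun z => (hne ⟨z⟩).elim, fun z => (hne ⟨z⟩).elim, fun _ z => (hne ⟨z⟩).elim⟩
  obtain ⟨z0⟩ := hne
  obtain ⟨p, hp⟩ := hp z0
  -- representatives of the orbits
  let s : Setoid Z :=
    { r := fun z w => ∃ a, σ a z = w
      iseqv := ⟨fun z => ⟨1, by rw [map_one]; rfl⟩, by
        rintro z w ⟨a, rfl⟩
        exact ⟨a⁻¹, by rw [← Equiv.Perm.mul_apply, ← map_mul, inv_mul_cancel, map_one]; rfl⟩, by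
        rintro z w v ⟨a, rfl⟩ ⟨b, rfl⟩
        exact ⟨b * a, by rw [map_mul]; rfl⟩⟩ }
  obtain ⟨r, hr1, hr2⟩ : ∃ r : Z → Z, (∀ z, ∃ a, σ a (r z) = z) ∧
      ∀ a z, r (σ a z) = r z := by
    refine ⟨fun z => (Quotient.mk s z).out, fun z => Quotient.mk_out (s := s) z, fun a z => ?_⟩
    have h1 : Quotient.mk s (σ a z) = Quotient.mk s z := (Quotient.sound (s := s) ⟨a, rfl⟩).symm
    change (Quotient.mk s (σ a z)).out = (Quotient.mk s z).out
    rw [h1]
  -- the code of a representative
  let t : Z → Option I → M := fun z o => o.elim (n (r z)) p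
  have ht : ∀ a a' z w, (fun i => ρ a (t z i)) = (fun i => ρ a' (t w i)) → a = a' ∧ r z = r w := by
    intro a a' z w h
    have h1 : a'⁻¹ * a = 1 := by
      apply hp
      intro i
      have h2 := congrFun h (some i)
      change ρ a (p i) = ρ a' (p i) at h2
      rw [map_mul, Equiv.Perm.mul_apply, h2, ← Equiv.Perm.mul_apply, ← map_mul, inv_mul_cancel,
        map_one]
      rfl
    have h3 : a = a' := (inv_mul_eq_one.mp h1).symm
    subst h3
    refine ⟨rfl, ?_⟩
    have h4 := congrFun h none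
    exact n.injective ((ρ a).injective h4)
  have hcard : ∀ z, #{x : Option I → M | ∃ a, σ a (r z) = z ∧ (fun i => ρ a (t z i)) = x} ≤ #I := by
    intro z
    refine le_trans ?_ hA
    refine le_trans (mk_le_mk_of_subset (t := Set.range fun a => fun i => ρ a (t z i)) ?_)
      mk_range_le
    rintro x ⟨a, _, rfl⟩
    exact ⟨a, rfl⟩
  refine ⟨fun z => ⟨_, hcard z⟩, ?_, ?_⟩
  · intro z w hzw
    have h1 : {x : Option I → M | ∃ a, σ a (r z) = z ∧ (fun i => ρ a (t z i)) = x} =
      {x : Option I → M | ∃ a, σ a (r w) = w ∧ (fun i => ρ a (t w i)) = x} :=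
      congrArg Subtype.val hzw
    obtain ⟨a, ha⟩ := hr1 z
    have h2 : (fun i => ρ a (t z i)) ∈
        {x : Option I → M | ∃ a, σ a (r z) = z ∧ (fun i => ρ a (t z i)) = x} := ⟨a, ha, rfl⟩
    rw [h1] at h2
    obtain ⟨a', ha', h3⟩ := h2
    obtain ⟨h4, h5⟩ := ht _ _ _ _ h3
    rw [← ha, ← ha', h4, h5]
  · intro b z
    apply Subtype.ext
    change {x : Option I → M | ∃ a, σ a (r (σ b z)) = σ b z ∧ (fun i => ρ a (t (σ b z) i)) = x} =
      (fun t => fun i => ρ b (t i)) ''
        {x : Option I → M | ∃ a, σ a (r z) = z ∧ (fun i => ρ a (t z i)) = x}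
    have htb : t (σ b z) = t z := by
      funext o
      cases o with
      | none => exact congrArg n (hr2 b z)
      | some i => rfl
    rw [htb, hr2]
    ext x
    constructor
    · rintro ⟨a, ha, rfl⟩
      refine ⟨fun i => ρ (b⁻¹ * a) (t z i), ⟨b⁻¹ * a, ?_, rfl⟩, ?_⟩
      · rw [map_mul, Equiv.Perm.mul_apply, ha, ← Equiv.Perm.mul_apply, ← map_mul, inv_mul_cancel,
          map_one]
        rfl
      · funext i
        change ρ b (ρ (b⁻¹ * a) (t z i)) = _
        rw [← Equiv.Perm.mul_apply, ← map_mul, mul_inv_cancel_left]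
    · rintro ⟨_, ⟨a, ha, rfl⟩, rfl⟩
      refine ⟨b * a, ?_, ?_⟩
      · rw [map_mul, Equiv.Perm.mul_apply, ha]
      · funext i
        rw [map_mul, Equiv.Perm.mul_apply]

/-- Any two faithful actions of a small group on `M` become conjugate on `Y I M`. -/
theorem conj_ext {A : Type u} [Group A] (hA : #A ≤ #I) (hY : #(Y I M) ≤ #M)
    (ρ₁ ρ₂ : A →* Equiv.Perm M) (h₁ : Function.Injective ρ₁) (h₂ : Function.Injective ρ₂) :
    ∃ e : Equiv.Perm (Y I M), ∀ a, e * Ext I M (ρ₁ a) * e⁻¹ = Ext I M (ρ₂ a) := by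
  obtain ⟨f, hf, hfe⟩ := universal hA hY ρ₂ h₂ ((Ext I M).comp ρ₁)
  obtain ⟨g, hg, hge⟩ := universal hA hY ρ₁ h₁ ((Ext I M).comp ρ₂)
  obtain ⟨e, he⟩ := csb ((Ext I M).comp ρ₁) ((Ext I M).comp ρ₂) f hf hfe g hg hge
  refine ⟨e, fun a => ?_⟩
  rw [mul_inv_eq_iff_eq_mul]
  apply Equiv.ext
  intro z
  exact he a z

end Pool.Agent.Q88.KEC
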