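import Pool.Agent.Q88.KEC.Ambient
import Mathlib.Algebra.Group.Subgroup.Lattice
import Mathlib.Algebra.Group.Subgroup.Map
import Mathlib.Algebra.Group.End

/-! # One step of the construction, and limits -/

namespace Pool.Agent.Q88.KEC

universe u

open Cardinal

theorem pow_card {I M : Type u} (hI : ℵ₀ ≤ #I) (hM : #M = 2 ^ #I) {c : Cardinal.{u}}
    (hc : c ≤ #I) : #M ^ c ≤ #M := by
  have h1 : #M ≠ 0 := by rw [hM]; exact (power_pos _ two_pos).ne'
  refine (power_le_power_left h1 hc).trans ?_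
  rw [hM, ← power_mul, mul_eq_self hI]

theorem inf_M {I M : Type u} (hI : ℵ₀ ≤ #I) (hM : #M = 2 ^ #I) : ℵ₀ ≤ #M := by
  rw [hM]
  exact hI.trans (cantor _).le

theorem card_Y {I M : Type u} (hI : ℵ₀ ≤ #I) (hM : #M = 2 ^ #I) : #(Y I M) = #M := by
  apply le_antisymm
  · refine (mk_bounded_set_le (Option I → M) #I).trans ?_
    have h1 : #(Option I → M) ≤ #M := by
      have h2 : #(Option I) ≤ #I := by
        rw [mk_option, add_one_eq hI]
      calc #(Option I → M) = #M ^ #(Option I) := by rw [mk_pi]; simp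
        _ ≤ #M := pow_card hI hM h2
    have h3 : max #(Option I → M) ℵ₀ ≤ #M := max_le h1 (inf_M hI hM)
    exact (power_le_power_right h3).trans (pow_card hI hM le_rfl)
  · refine mk_le_of_injective
      (f := fun m => (⟨{fun _ => m}, by rw [mk_singleton]; exact one_le_aleph0.trans hI⟩ : Y I M)) ?_
    intro m m' h
    have h1 : ({fun _ => m} : Set (Option I → M)) = {fun _ => m'} := congrArg Subtype.val h
    rw [Set.singleton_eq_singleton_iff] at h1
    exact congrFun h1 none

/-- `S` is a good extension of `P`. -/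
structure Good (I M : Type u) {N : Type u} (P S : Subgroup (Equiv.Perm N)) : Prop where
  le : P ≤ S
  free : Fr S
  iso : Nonempty (S ≃* Equiv.Perm M)
  conj : ∀ (A : Type u) [Group A], #A ≤ #I → ∀ φ₁ φ₂ : A →* Equiv.Perm N,
    Function.Injective φ₁ → Function.Injective φ₂ → (∀ a, φ₁ a ∈ P) → (∀ a, φ₂ a ∈ P) →
    ∃ e ∈ S, ∀ a, e * φ₁ a * e⁻¹ = φ₂ a

theorem step_exists {I M N : Type u} (hI : ℵ₀ ≤ #I) (hM : #M = 2 ^ #I)
    (hN : #(Equiv.Perm M) < #N) (P : Subgroup (Equiv.Perm N)) (hP : Fr P)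
    (η : P →* Equiv.Perm M) (hη : Function.Injective η) : ∃ S, Good I M P S := by
  obtain ⟨eY⟩ := Cardinal.eq.mp (card_Y hI hM)
  have hNinf : ℵ₀ ≤ #N := by
    have : Infinite M := infinite_iff.mpr (inf_M hI hM)
    rw [mk_perm_eq_two_power] at hN
    exact (inf_M hI hM).trans ((cantor _).le.trans hN.le)
  have hExt : Function.Injective (Ext I M) := Ext_injective (one_le_aleph0.trans hI)
  have hYcard : #(Equiv.Perm (Y I M)) < #N := by
    rwa [mk_congr (Equiv.permCongr eY)]
  obtain ⟨θ, hθ, hθf, hθfree⟩ := extend P hP ((Ext I M).comp η) (hExt.comp hη) hNinf hYcard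
  refine ⟨θ.range, ⟨?_, hθfree, ?_, ?_⟩⟩
  · intro p hp
    exact ⟨_, hθf ⟨p, hp⟩⟩
  · exact ⟨(MonoidHom.ofInjective hθ).symm.trans (Equiv.permCongrHom eY)⟩
  · intro A _ hA φ₁ φ₂ h₁ h₂ hm₁ hm₂
    have hc₁ : Function.Injective (φ₁.codRestrict P hm₁) := fun a b hab =>
      h₁ (congrArg Subtype.val hab)
    have hc₂ : Function.Injective (φ₂.codRestrict P hm₂) := fun a b hab =>
      h₂ (congrArg Subtype.val hab)
    obtain ⟨e, he⟩ := conj_ext (I := I) (M := M) hA (card_Y hI hM).le
      (η.comp (φ₁.codRestrict P hm₁)) (η.comp (φ₂.codRestrict P hm₂)) (hη.comp hc₁) (hη.comp hc₂)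
    refine ⟨θ e, ⟨e, rfl⟩, fun a => ?_⟩
    have h3 := congrArg θ (he a)
    rw [map_mul, map_mul, map_inv] at h3
    have h4 : θ (Ext I M ((η.comp (φ₁.codRestrict P hm₁)) a)) = φ₁ a := hθf _
    have h5 : θ (Ext I M ((η.comp (φ₂.codRestrict P hm₂)) a)) = φ₂ a := hθf _
    rw [h4, h5] at h3
    exact h3

/-- The union of a short chain of groups embedding in `Perm M` embeds in `Perm M`. -/
theorem germEmb {I M : Type u} (hI : ℵ₀ ≤ #I) (hM : #M = 2 ^ #I) {K : Type u} [LinearOrder K]
    [Nonempty K] (hK : #K ≤ #I) {G : Type u} [Group G] (S : K → Subgroup G) (hmono : Monotone S)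
    (e : ∀ k, S k →* Equiv.Perm M) (he : ∀ k, Function.Injective (e k)) :
    ∃ η : (⨆ k, S k : Subgroup G) →* Equiv.Perm M, Function.Injective η := by
  classical
  have hmem : ∀ g ∈ (⨆ k, S k : Subgroup G), ∃ k, g ∈ S k := by
    intro g hg
    rwa [Subgroup.mem_iSup_of_directed hmono.directed_le] at hg
  let s : Setoid (K → M) :=
    { r := fun f g => ∃ k₀, ∀ k, k₀ ≤ k → f k = g k
      iseqv := ⟨fun f => ⟨Classical.arbitrary K, fun _ _ => rfl⟩, by
        rintro f g ⟨k₀, h⟩
        exact ⟨k₀, fun k hk => (h k hk).symm⟩, by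
        rintro f g h ⟨k₀, h₁⟩ ⟨k₁, h₂⟩
        exact ⟨max k₀ k₁, fun k hk => (h₁ k ((le_max_left _ _).trans hk)).trans
          (h₂ k ((le_max_right _ _).trans hk))⟩⟩ }
  let T : G → (K → M) → (K → M) := fun g f k => if h : g ∈ S k then e k ⟨g, h⟩ (f k) else f k
  have hTin : ∀ g f k (h : g ∈ S k), T g f k = e k ⟨g, h⟩ (f k) := fun g f k h => dif_pos h
  have hTs : ∀ g f f', s.r f f' → s.r (T g f) (T g f') := by
    rintro g f f' ⟨k₀, h⟩
    refine ⟨k₀, fun k hk => ?_⟩
    change (if h : g ∈ S k then e k ⟨g, h⟩ (f k) else f k) =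
      (if h : g ∈ S k then e k ⟨g, h⟩ (f' k) else f' k)
    rw [h k hk]
  let _ : MulAction (⨆ k, S k : Subgroup G) (Quotient s) :=
    { smul := fun g => Quotient.map (T g) (hTs g)
      one_smul := by
        intro x
        induction x using Quotient.inductionOn with
        | h f =>
          apply Quotient.sound
          refine ⟨Classical.arbitrary K, fun k _ => ?_⟩
          have h1 : (1 : G) ∈ S k := (S k).one_mem
          rw [Subgroup.coe_one, hTin 1 f k h1]
          have h2 : e k ⟨1, h1⟩ = 1 := map_one (e k)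
          rw [h2]
          rfl
      mul_smul := by
        intro g h x
        induction x using Quotient.inductionOn with
        | h f =>
          apply Quotient.sound
          obtain ⟨k₀, hk₀⟩ := hmem g g.2
          obtain ⟨k₁, hk₁⟩ := hmem h h.2
          refine ⟨max k₀ k₁, fun k hk => ?_⟩
          have h1 : (g : G) ∈ S k := hmono ((le_max_left _ _).trans hk) hk₀
          have h2 : (h : G) ∈ S k := hmono ((le_max_right _ _).trans hk) hk₁
          rw [Subgroup.coe_mul, hTin _ f k ((S k).mul_mem h1 h2), hTin _ _ k h1, hTin _ f k h2]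
          have h3 : e k ⟨(g : G) * h, (S k).mul_mem h1 h2⟩ = e k ⟨g, h1⟩ * e k ⟨h, h2⟩ := by
            rw [← map_mul]
            rfl
          rw [h3]
          rfl }
  have hQ : #(Quotient s) ≤ #M := by
    refine mk_quotient_le.trans ?_
    rw [mk_pi]
    simp only [prod_const, lift_id]
    exact pow_card hI hM hK
  obtain ⟨ι⟩ := hQ
  refine ⟨(Equiv.Perm.viaEmbeddingHom ι).comp (MulAction.toPermHom _ (Quotient s)), ?_⟩
  refine (Equiv.Perm.viaEmbeddingHom_injective ι).comp ?_
  rw [injective_iff_map_eq_one]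
  intro g hg
  by_contra hne
  obtain ⟨k₁, hk₁⟩ := hmem g g.2
  have hmov : ∀ k (h : (g : G) ∈ S k), ∃ m, e k ⟨g, h⟩ m ≠ m := by
    intro k h
    by_contra hcon
    push Not at hcon
    have h1 : e k ⟨g, h⟩ = 1 := Equiv.ext hcon
    have h2 : (⟨g, h⟩ : S k) = 1 := he k (h1.trans (map_one _).symm)
    have h3 : (g : G) = 1 := congrArg (fun x : S k => (x : G)) h2
    exact hne (Subtype.ext h3)
  obtain ⟨m₁, _⟩ := hmov k₁ hk₁
  let f : K → M := fun k => if h : (g : G) ∈ S k then (hmov k h).choose else m₁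
  have hf : ∀ k (h : (g : G) ∈ S k), e k ⟨g, h⟩ (f k) ≠ f k := by
    intro k h
    have h1 : f k = (hmov k h).choose := dif_pos h
    rw [h1]
    exact (hmov k h).choose_spec
  have h1 := Equiv.ext_iff.mp hg (Quotient.mk s f)
  have h2 : s.r (T g f) f := Quotient.exact h1
  obtain ⟨k₀, hk₀⟩ := h2
  have h3 := hk₀ (max k₀ k₁) (le_max_left _ _)
  have h4 : (g : G) ∈ S (max k₀ k₁) := hmono (le_max_right _ _) hk₁
  rw [hTin _ f _ h4] at h3
  exact hf _ h4 h3

end Pool.Agent.Q88.KEC
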